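import Pool.Agent.Helper50.BL.Defs

/-! # Basic facts: expectation on finite products, components -/

namespace Pool.Agent.Helper50.BL

open Finset
open scoped Classical

section prob

variable {V α : Type} [Fintype V] [DecidableEq V] [Fintype α] {mu : V → α → ℝ}

theorem Ex_add (F G : (V → α) → ℝ) : Ex mu (fun w => F w + G w) = Ex mu F + Ex mu G := by
  simp only [Ex, mul_add, Finset.sum_add_distrib]

theorem Ex_sub (F G : (V → α) → ℝ) : Ex mu (fun w => F w - G w) = Ex mu F - Ex mu G := by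
  simp only [Ex, mul_sub, Finset.sum_sub_distrib]

theorem Ex_mul_left (c : ℝ) (F : (V → α) → ℝ) : Ex mu (fun w => c * F w) = c * Ex mu F := by
  simp only [Ex, Finset.mul_sum]
  refine Finset.sum_congr rfl fun w _ => ?_
  ring

theorem Ex_sum {ι : Type} (s : Finset ι) (F : ι → (V → α) → ℝ) :
    Ex mu (fun w => ∑ i ∈ s, F i w) = ∑ i ∈ s, Ex mu (F i) := by
  simp only [Ex, Finset.mul_sum]
  rw [Finset.sum_comm]

/-- product formula -/
theorem Ex_prod (f : V → α → ℝ) :
    Ex mu (fun w => ∏ v, f v (w v)) = ∏ v, ∑ a, mu v a * f v a := by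
  simp only [Ex]
  rw [Finset.prod_univ_sum, Fintype.piFinset_univ]
  refine Finset.sum_congr rfl fun w _ => ?_
  rw [Finset.prod_mul_distrib]

omit [DecidableEq V] in
theorem wt_nn (h : IsW mu) (w : V → α) : 0 ≤ ∏ v, mu v (w v) :=
  Finset.prod_nonneg fun v _ => h.1 v _

theorem Ex_one (h : IsW mu) : Ex mu (fun _ => 1) = 1 := by
  have := Ex_prod (mu := mu) (fun _ _ => (1 : ℝ))
  simp only [Finset.prod_const_one, mul_one] at this
  rw [this]
  exact Finset.prod_eq_one fun v _ => h.2 v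

theorem Ex_const (h : IsW mu) (c : ℝ) : Ex mu (fun _ => c) = c := by
  have := Ex_mul_left (mu := mu) c (fun _ => 1)
  rw [Ex_one h] at this
  simpa using this

theorem Ex_mono (h : IsW mu) {F G : (V → α) → ℝ} (hFG : ∀ w, F w ≤ G w) : Ex mu F ≤ Ex mu G :=
  Finset.sum_le_sum fun w _ => mul_le_mul_of_nonneg_left (hFG w) (wt_nn h w)

/-- some value is at most the expectation -/
theorem exists_le_Ex (h : IsW mu) (F : (V → α) → ℝ) : ∃ w, F w ≤ Ex mu F := by
  by_contra hc
  push Not at hc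
  have h1 : ∑ w : V → α, (∏ v, mu v (w v)) = 1 := by
    have := Ex_one h
    simpa [Ex] using this
  have h2 : ∃ w ∈ (univ : Finset (V → α)), 0 < ∏ v, mu v (w v) := by
    by_contra h3
    push Not at h3
    have h4 : ∑ w : V → α, (∏ v, mu v (w v)) ≤ 0 := Finset.sum_nonpos fun w hw => h3 w hw
    linarith
  obtain ⟨w0, hw0, hp⟩ := h2
  have h5 : Ex mu (fun _ => Ex mu F) < Ex mu F := by
    refine Finset.sum_lt_sum (fun w _ => mul_le_mul_of_nonneg_left (hc w).le (wt_nn h w)) ?_
    exact ⟨w0, hw0, mul_lt_mul_of_pos_left (hc w0) hp⟩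
  rw [Ex_const h] at h5
  exact lt_irrefl _ h5

/-- expectation of a function of one coordinate -/
theorem Ex_coord (h : IsW mu) (v0 : V) (f : α → ℝ) :
    Ex mu (fun w => f (w v0)) = ∑ a, mu v0 a * f a := by
  have h1 := Ex_prod (mu := mu) (fun v a => if v = v0 then f a else 1)
  have h2 : (fun w : V → α => ∏ v, (if v = v0 then f (w v) else 1)) = fun w => f (w v0) := by
    funext w
    simp
  rw [h2] at h1
  rw [h1]
  rw [← Finset.mul_prod_erase univ _ (Finset.mem_univ v0)]
  simp only [if_true]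
  rw [Finset.prod_eq_one, mul_one]
  intro v hv
  simp only [Finset.mem_erase, Finset.mem_univ, and_true] at hv
  simp only [hv, if_false, mul_one]
  exact h.2 v

theorem Pr_nonneg (h : IsW mu) (A : (V → α) → Prop) : 0 ≤ Pr mu A := by
  refine Finset.sum_nonneg fun w _ => mul_nonneg (wt_nn h w) ?_
  show (0 : ℝ) ≤ if A w then 1 else 0
  split_ifs <;> norm_num

theorem Pr_mono (h : IsW mu) {A B : (V → α) → Prop} (hAB : ∀ w, A w → B w) :
    Pr mu A ≤ Pr mu B := by
  refine Ex_mono h fun w => ?_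
  by_cases hA : A w
  · simp [hA, hAB w hA]
  · simp only [hA, if_false]
    split_ifs <;> norm_num

theorem Pr_le_one (h : IsW mu) (A : (V → α) → Prop) : Pr mu A ≤ 1 := by
  have : Pr mu A ≤ Ex mu (fun _ => 1) := by
    refine Ex_mono h fun w => ?_
    split_ifs <;> norm_num
  rwa [Ex_one h] at this

theorem Pr_or (h : IsW mu) (A B : (V → α) → Prop) :
    Pr mu (fun w => A w ∨ B w) ≤ Pr mu A + Pr mu B := by
  unfold Pr
  rw [← Ex_add]
  refine Ex_mono h fun w => ?_
  by_cases hA : A w <;> by_cases hB : B w <;> simp [hA, hB]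

theorem Pr_false (mu : V → α → ℝ) {A : (V → α) → Prop} (hA : ∀ w, ¬ A w) : Pr mu A = 0 := by
  simp [Pr, Ex, hA]

end prob

/-- sums over components -/
theorem IsComp.sum {α : Type} {R : α → α → Prop} {Q : Finset α} {C : Finset (Finset α)}
    (h : IsComp R Q C) {M : Type} [AddCommMonoid M] (f : α → M) :
    ∑ p ∈ Q, f p = ∑ A ∈ C, ∑ p ∈ A, f p := by
  have h1 : Q = C.biUnion id := by
    ext p
    rw [h.2.1 p]
    simp
  rw [h1, Finset.sum_biUnion]
  · rfl
  · intro A hA A' hA' hne
    rw [Function.onFun, Finset.disjoint_left]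
    intro a ha hb
    exact (h.2.2 A hA A' hA' hne a ha a hb).1 rfl

theorem IsComp.subset {α : Type} {R : α → α → Prop} {Q : Finset α} {C : Finset (Finset α)}
    (h : IsComp R Q C) {A : Finset α} (hA : A ∈ C) : A ⊆ Q := fun p hp =>
  (h.2.1 p).2 ⟨A, hA, hp⟩

end Pool.Agent.Helper50.BL
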