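import Mathlib

/-!
# Set systems with small pairwise intersections: definitions

Independent rounding of half of the points, LP duality, chaining over nets of dual vectors.
-/

namespace Pool.Agent.Helper50.BL

open Finset
open scoped Classical

noncomputable section

/-! ## probability on a finite product -/

/-- `mu v` is a probability vector for every `v` -/
def IsW {V α : Type} [Fintype α] (mu : V → α → ℝ) : Prop :=
  (∀ v a, 0 ≤ mu v a) ∧ ∀ v, ∑ a, mu v a = 1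

/-- expectation on the product of the probability vectors `mu v` -/
def Ex {V α : Type} [Fintype V] [DecidableEq V] [Fintype α] (mu : V → α → ℝ)
    (F : (V → α) → ℝ) : ℝ :=
  ∑ w : V → α, (∏ v, mu v (w v)) * F w

/-- probability of an event -/
def Pr {V α : Type} [Fintype V] [DecidableEq V] [Fintype α] (mu : V → α → ℝ)
    (A : (V → α) → Prop) : ℝ :=
  Ex mu (fun w => if A w then 1 else 0)

/-- the event `A` depends only on the coordinates in `X` -/
def Dep {V α : Type} (X : Finset V) (A : (V → α) → Prop) : Prop :=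
  ∀ w w' : V → α, (∀ v ∈ X, w v = w' v) → (A w ↔ A w')

/-! ## connected finite sets -/

/-- `Q` is nonempty and connected for the relation `R` (cut form) -/
def Conn {α : Type} (R : α → α → Prop) (Q : Finset α) : Prop :=
  Q.Nonempty ∧ ∀ A : Finset α, A ⊆ Q → A.Nonempty → A ≠ Q → ∃ a ∈ A, ∃ b ∈ Q, b ∉ A ∧ R a b

/-! ## fields, costs -/

/-- `sum of lam j` over the `j` in `A` with `x` in `S j` -/
def fld {V J : Type} [DecidableEq V] (S : J → Finset V) (lam : J → ℝ) (A : Finset J) (x : V) : ℝ :=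
  ∑ j ∈ A.filter (fun j => x ∈ S j), lam j

/-- the `l^1` norm -/
def l1 {V : Type} [Fintype V] (f : V → ℝ) : ℝ := ∑ x, |f x|

/-- cost of an integer label -/
def cst (κ : ℝ) (n : ℤ) : ℝ := if n = 0 then 0 else κ + 2 * Real.log (1 + |(n : ℝ)|)

/-- expected cost of the random rounding of a number of absolute value `z` to the grid `Q`
(numbers below `thr` are rounded to `0`) -/
def e1 (κ Q thr z : ℝ) : ℝ :=
  if z < thr then 0 else (κ + 2) * (if z < Q then z / Q else Real.sqrt (2 * z / Q))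

/-- extra cost in the class step -/
def epsC (κ t Lam D : ℝ) : ℝ :=
  2 * (t * D) * ((κ + 2) * Real.sqrt (4 * t * Lam)) * Real.exp (-Lam)

/-- cost function of the items in the class step (level `h`) -/
def E1c (κ t T Lam D h z : ℝ) : ℝ :=
  if z < h / (8 * t * T) then 0 else
    e1 κ (8 * Lam * h / T) (h / (8 * t * T)) z + epsC κ t Lam D

/-- cost function of the corrections in the class step (level `h`) -/
def E2c (κ T h z : ℝ) : ℝ :=
  if 8 * h / T ≤ 4 * z then (κ + 2) * Real.sqrt (4 * z / (8 * h / T)) else 0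

/-! ## nets -/

/-- a net: integer valued fields with costs -/
structure Net (V : Type) where
  ι : Type
  φ : ι → V → ℤ
  H : ι → ℝ
  nn : ∀ a, 0 ≤ H a

/-- support of an integer valued field -/
def isupp {V : Type} [Fintype V] (φ : V → ℤ) : Finset V := univ.filter (fun x => φ x ≠ 0)

/-- Kraft inequality at every point, with exponential moment `β` of the support size -/
def Kraft {V : Type} [Fintype V] (N : Net V) (β ζ : ℝ) : Prop :=
  ∀ (x : V) (F : Finset N.ι),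
    ∑ a ∈ F.filter (fun a => N.φ a x ≠ 0), Real.exp (-(N.H a) + β * (#(isupp (N.φ a)) : ℝ)) ≤ ζ

/-- every field `fld S lam A` is approximated at every dyadic level by sums of pieces of the net,
with total cost `Bd lam` -/
def Approx {V J : Type} [Fintype V] [DecidableEq V] (N : Net V) (S : J → Finset V) (A : Finset J)
    (Bd : (J → ℝ) → ℝ) : Prop :=
  ∀ lam : J → ℝ, ∃ E : ℤ → ℝ,
    (∀ l : ℤ, ∃ F : Finset N.ι,
      (∀ x, |(2 : ℝ) ^ l * ((∑ a ∈ F, N.φ a x : ℤ) : ℝ) - fld S lam A x| ≤ (2 : ℝ) ^ l) ∧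
      (∀ x, |fld S lam A x| < (2 : ℝ) ^ l / 4 → (∑ a ∈ F, N.φ a x) = 0) ∧
      ∑ a ∈ F, N.H a ≤ E l) ∧
    (∀ G : Finset ℤ, ∑ l ∈ G, (2 : ℝ) ^ l * E l ≤ Bd lam)

/-! ## the class step -/

/-- decoded value of the set `j` -/
def dec {V J : Type} [DecidableEq V] [DecidableEq J] (S : J → Finset V) (I : Finset J)
    (T Lam : ℝ) (Φ : V → ℤ) (r c : J → ℤ) (j : J) : ℝ :=
  -((1 / (#(S j) : ℝ)) * ∑ x ∈ S j, ((Φ x : ℝ) / T
    + 8 * Lam / T * ∑ i ∈ (I.erase j).filter (fun i => x ∈ S i), (r i : ℝ))) + 8 / T * (c j : ℝ)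

/-- the new field -/
def out {V J : Type} [DecidableEq V] [DecidableEq J] (S : J → Finset V) (I B : Finset J)
    (T Lam : ℝ) (Φ : V → ℤ) (r c : J → ℤ) (x : V) : ℤ :=
  round ((Φ x : ℝ) / T + ∑ j ∈ B.filter (fun j => x ∈ S j), dec S I T Lam Φ r c j)

/-- polymers of the class step: pieces of the upper net, labels of items, corrections -/
abbrev Pol (ι J : Type) := ι ⊕ ((J × ℤ) ⊕ (J × ℤ))

/-- support of a polymer -/
def psup {V J ι : Type} [Fintype V] [DecidableEq J] (φ : ι → V → ℤ) (S : J → Finset V)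
    (I B : Finset J) : Pol ι J → Finset V
  | Sum.inl a => isupp (φ a)
  | Sum.inr (Sum.inl p) => if p.1 ∈ I ∧ p.2 ≠ 0 then S p.1 else ∅
  | Sum.inr (Sum.inr p) => if p.1 ∈ B ∧ p.2 ≠ 0 then S p.1 else ∅

/-- cost of a polymer -/
def pcost {J ι : Type} (H : ι → ℝ) (κ : ℝ) : Pol ι J → ℝ
  | Sum.inl a => H a
  | Sum.inr (Sum.inl p) => cst κ p.2
  | Sum.inr (Sum.inr p) => cst κ p.2

/-- contributions of a polymer to the three data -/
def pΦ {V J ι : Type} (φ : ι → V → ℤ) (x : V) : Pol ι J → ℤ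
  | Sum.inl a => φ a x
  | _ => 0

def pr {J ι : Type} [DecidableEq J] (i : J) : Pol ι J → ℤ
  | Sum.inr (Sum.inl p) => if p.1 = i then p.2 else 0
  | _ => 0

def pc {J ι : Type} [DecidableEq J] (j : J) : Pol ι J → ℤ
  | Sum.inr (Sum.inr p) => if p.1 = j then p.2 else 0
  | _ => 0

/-- the field decoded from a finite set of polymers -/
def outQ {V J ι : Type} [DecidableEq V] [DecidableEq J] (φ : ι → V → ℤ) (S : J → Finset V)
    (I B : Finset J) (T Lam : ℝ) (Q : Finset (Pol ι J)) : V → ℤ :=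
  out S I B T Lam (fun x => ∑ p ∈ Q, pΦ φ x p) (fun i => ∑ p ∈ Q, pr i p)
    (fun j => ∑ p ∈ Q, pc j p)

/-- the points influenced by `x` -/
def nbr {V J : Type} [DecidableEq V] (S : J → Finset V) (B : Finset J) (x : V) : Finset V :=
  insert x ((B.filter (fun j => x ∈ S j)).biUnion S)

/-- region of a polymer -/
def reg {V J ι : Type} [Fintype V] [DecidableEq V] [DecidableEq J] (φ : ι → V → ℤ)
    (S : J → Finset V) (I B : Finset J) (p : Pol ι J) : Finset V :=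
  (psup φ S I B p).biUnion (nbr S B)

/-- two polymers interact -/
def Rel {V J ι : Type} [Fintype V] [DecidableEq V] [DecidableEq J] (φ : ι → V → ℤ)
    (S : J → Finset V) (I B : Finset J) (p q : Pol ι J) : Prop :=
  ¬ Disjoint (reg φ S I B p) (reg φ S I B q)

/-- the field of a cluster -/
def clf {V J ι : Type} [Fintype V] [DecidableEq V] [DecidableEq J] (φ : ι → V → ℤ)
    (S : J → Finset V) (I B : Finset J) (T Lam : ℝ) (Q : Finset (Pol ι J)) : V → ℤ :=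
  if Conn (Rel φ S I B) Q then outQ φ S I B T Lam Q else 0

theorem cst_nn {κ : ℝ} (hκ : 0 ≤ κ) (n : ℤ) : 0 ≤ cst κ n := by
  unfold cst
  split_ifs
  · exact le_rfl
  · have : 0 ≤ Real.log (1 + |(n : ℝ)|) := Real.log_nonneg (by
      have := abs_nonneg (n : ℝ); linarith)
    linarith

theorem pcost_nn {J ι : Type} {H : ι → ℝ} (hH : ∀ a, 0 ≤ H a) {κ : ℝ} (hκ : 0 ≤ κ)
    (p : Pol ι J) : 0 ≤ pcost H κ p := by
  rcases p with a | p | p
  · exact hH a
  · exact cst_nn hκ p.2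
  · exact cst_nn hκ p.2

/-- the net of the class step -/
def stepNet {V J : Type} [Fintype V] [DecidableEq V] [DecidableEq J] (N : Net V)
    (S : J → Finset V) (I B : Finset J) (T Lam κ β : ℝ) (hκ : 0 ≤ κ) (hβ : 0 ≤ β) : Net V where
  ι := Finset (Pol N.ι J)
  φ := fun Q => clf N.φ S I B T Lam Q
  H := fun Q => ∑ p ∈ Q, pcost N.H κ p + β * (#(isupp (clf N.φ S I B T Lam Q)) : ℝ)
  nn := fun Q => add_nonneg (Finset.sum_nonneg fun p _ => pcost_nn N.nn hκ p)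
    (mul_nonneg hβ (Nat.cast_nonneg _))

/-! ## the final stage -/

/-- drift function: `w (a - y) - |w| 1(a = 0) / 4` -/
def gg (y : ℝ) (a : SignType) (w : ℝ) : ℝ :=
  w * ((a : ℝ) - y) - (if a = 0 then |w| / 4 else 0)

/-- the sum of the drift functions -/
def Gs {V : Type} [Fintype V] (y : V → ℝ) (ξ : V → SignType) (w : V → ℝ) : ℝ :=
  ∑ x, gg (y x) (ξ x) (w x)

/-- the weights of the rounding: `P(0) = 1/2`, `P(1) = 1/4 + y/2`, `P(-1) = 1/4 - y/2` -/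
def mw {V : Type} (y : V → ℝ) (x : V) (a : SignType) : ℝ :=
  if a = 0 then 1 / 2 else if a = 1 then 1 / 4 + y x / 2 else 1 / 4 - y x / 2

/-- the final rounded field (in units of the level) -/
def finw {V J : Type} [DecidableEq V] (S : J → Finset V) (Z : Finset J) (Ag : ℝ) (Φ : V → ℤ)
    (r : J → ℤ) (x : V) : ℤ :=
  round ((Φ x : ℝ) / 16 + 1 / Ag * ∑ i ∈ Z.filter (fun i => x ∈ S i), (r i : ℝ))

/-- polymers of the final stage: pieces (fine, coarse), labels (fine, coarse) -/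
abbrev FPol (ι J : Type) := (ι ⊕ ι) ⊕ ((J × ℤ) ⊕ (J × ℤ))

def fsup {V J ι : Type} [Fintype V] [DecidableEq J] (φ : ι → V → ℤ) (S : J → Finset V)
    (Z : Finset J) : FPol ι J → Finset V
  | Sum.inl (Sum.inl a) => isupp (φ a)
  | Sum.inl (Sum.inr a) => isupp (φ a)
  | Sum.inr (Sum.inl p) => if p.1 ∈ Z ∧ p.2 ≠ 0 then S p.1 else ∅
  | Sum.inr (Sum.inr p) => if p.1 ∈ Z ∧ p.2 ≠ 0 then S p.1 else ∅

def fcost {J ι : Type} (H : ι → ℝ) (κ : ℝ) : FPol ι J → ℝ
  | Sum.inl (Sum.inl a) => H a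
  | Sum.inl (Sum.inr a) => H a
  | Sum.inr (Sum.inl p) => cst κ p.2
  | Sum.inr (Sum.inr p) => cst κ p.2

def fΦ1 {V J ι : Type} (φ : ι → V → ℤ) (x : V) : FPol ι J → ℤ
  | Sum.inl (Sum.inl a) => φ a x
  | _ => 0

def fΦ2 {V J ι : Type} (φ : ι → V → ℤ) (x : V) : FPol ι J → ℤ
  | Sum.inl (Sum.inr a) => φ a x
  | _ => 0

def fr1 {J ι : Type} [DecidableEq J] (i : J) : FPol ι J → ℤ
  | Sum.inr (Sum.inl p) => if p.1 = i then p.2 else 0
  | _ => 0

def fr2 {J ι : Type} [DecidableEq J] (i : J) : FPol ι J → ℤ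
  | Sum.inr (Sum.inr p) => if p.1 = i then p.2 else 0
  | _ => 0

/-- fine and coarse field of a finite set of polymers -/
def fw1 {V J ι : Type} [DecidableEq V] [DecidableEq J] (φ : ι → V → ℤ) (S : J → Finset V)
    (Z : Finset J) (Ag : ℝ) (Q : Finset (FPol ι J)) : V → ℤ :=
  finw S Z Ag (fun x => ∑ p ∈ Q, fΦ1 φ x p) (fun i => ∑ p ∈ Q, fr1 i p)

def fw2 {V J ι : Type} [DecidableEq V] [DecidableEq J] (φ : ι → V → ℤ) (S : J → Finset V)
    (Z : Finset J) (Ag : ℝ) (Q : Finset (FPol ι J)) : V → ℤ :=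
  finw S Z Ag (fun x => ∑ p ∈ Q, fΦ2 φ x p) (fun i => ∑ p ∈ Q, fr2 i p)

/-- two polymers of the final stage interact -/
def FRel {V J ι : Type} [Fintype V] [DecidableEq V] [DecidableEq J] (φ : ι → V → ℤ)
    (S : J → Finset V) (Z : Finset J) (p q : FPol ι J) : Prop :=
  ¬ Disjoint (fsup φ S Z p) (fsup φ S Z q)

/-- the points where the increment from the coarse to the fine field lives -/
def Dst {V : Type} [Fintype V] (w w' : V → ℤ) : Finset V :=
  univ.filter (fun x => (w x ≠ 0 ∨ w' x ≠ 0) ∧ |w x - 2 * w' x| ≤ 3)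

/-- centred increment at a point -/
def inc (y : ℝ) (a : SignType) (w w' : ℤ) : ℝ :=
  gg y a (w : ℝ) - gg y a (2 * (w' : ℝ)) + (|(w : ℝ)| - 2 * |(w' : ℝ)|) / 8

/-- the bad event of two fields with cost `H` -/
def BadE {V : Type} [Fintype V] (y : V → ℝ) (γ H : ℝ) (w w' : V → ℤ) (ξ : V → SignType) : Prop :=
  Real.sqrt (18 * (#(Dst w w') : ℝ) * (H + γ * (#(Dst w w') : ℝ)))
    < ∑ x ∈ Dst w w', inc (y x) (ξ x) (w x) (w' x)

/-- no bad event happens for any cluster -/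
def NoBad {V J : Type} [Fintype V] [DecidableEq V] [DecidableEq J] (N : Net V) (S : J → Finset V)
    (Z : Finset J) (Ag κ γ : ℝ) (y : V → ℝ) (ξ : V → SignType) : Prop :=
  ∀ Q : Finset (FPol N.ι J), Conn (FRel N.φ S Z) Q →
    ¬ BadE y γ (∑ p ∈ Q, fcost N.H κ p) (fw1 N.φ S Z Ag Q) (fw2 N.φ S Z Ag Q) ξ

/-- the points of `X` which stay -/
def stay {V : Type} (ξ : V → SignType) (X : Finset V) : Finset V := X.filter (fun x => ξ x = 0)

/-! ## components, final cost function, parameters -/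

/-- `C` is the decomposition of `Q` into connected components for `R` -/
def IsComp {α : Type} (R : α → α → Prop) (Q : Finset α) (C : Finset (Finset α)) : Prop :=
  (∀ A ∈ C, Conn R A) ∧ (∀ p, p ∈ Q ↔ ∃ A ∈ C, p ∈ A) ∧
    (∀ A ∈ C, ∀ A' ∈ C, A ≠ A' → ∀ a ∈ A, ∀ b ∈ A', a ≠ b ∧ ¬ R a b)

/-- every point lies in at most `t` of the sets -/
def Deg {V J : Type} [DecidableEq V] [Fintype J] (S : J → Finset V) (t : ℕ) : Prop :=
  ∀ x, #(univ.filter (fun j => x ∈ S j)) ≤ t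

/-- cost function of the labels in the final stage (level `h`) -/
def E1f (κ t Ag K h z : ℝ) : ℝ :=
  if z < h / (64 * t * Ag) then 0 else e1 κ (h / Ag) (h / (64 * t * Ag)) z + 2 / K

/-- coefficient of the labels in the final stage -/
def Rf (κ t Ag K : ℝ) (Nf : ℕ) : ℝ := (κ + 2) * (Nf + 7) * Ag + 256 * t * Ag / K

/-- coefficient of the items in the class step -/
def Rc (κ t T Lam D : ℝ) (Nn : ℕ) : ℝ :=
  (κ + 2) * (Nn + 7) * T / (8 * Lam) + 16 * t * T * epsC κ t Lam D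

/-- the scale of class `k` -/
def nn (n1 k : ℕ) : ℕ := n1 ^ 2 ^ k

/-- coefficient of the sets of level `i` in the cost of the final net -/
def bco (ρ n1 i : ℕ) : ℝ :=
  if i = 0 then (1 / (n1 : ℝ)) ^ 3 else ((2 : ℝ) ^ ρ) ^ (i - 1) * (1 / (nn n1 (i - 1) : ℝ)) ^ 3

/-- cost of an item in the step at scale `n` -/
def kap (p n : ℕ) : ℝ := 320 * p * Real.log n

/-- numerical conditions of the class step at scale `n` -/
structure StepOK (p t ρ n : ℕ) : Prop where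
  a : 1 ≤ kap p n
  b : (1 + (t : ℝ) * (n : ℝ) ^ (32 * p)) ^ 2
      * ((1 / (n : ℝ) ^ (32 * p)) ^ 12 + 12 * t * Real.exp (-kap p n))
      ≤ (1 / (n : ℝ) ^ (32 * p)) ^ 2
  c : (1 + (t : ℝ) * (n : ℝ) ^ (32 * p))
      * ((1 / (n : ℝ) ^ (32 * p)) ^ 12 + 12 * t * Real.exp (-kap p n))
      ≤ (1 / (n : ℝ) ^ (32 * p)) ^ 6
  d : ∃ Nn : ℕ, 64 * (t : ℝ) * (n : ℝ) ^ 4 ≤ 2 ^ Nn ∧
      (2 : ℝ) ^ ρ * (1 / (n : ℝ)) ^ 6
        + Rc (kap p n) t ((2 : ℝ) ^ ρ) ((n : ℝ) ^ 4) ((n : ℝ) ^ (32 * p)) Nn ≤ (1 / (n : ℝ)) ^ 3 ∧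
      Rc (kap p n) t ((2 : ℝ) ^ ρ) ((n : ℝ) ^ 4) ((n : ℝ) ^ (32 * p)) Nn
        + (n : ℝ) ^ (16 * p) * ((2 : ℝ) ^ ρ * (1 / (n : ℝ)) ^ (24 * p)
          + 8 * (1 / (n : ℝ)) ^ (32 * p)) ≤ (1 / (n : ℝ)) ^ 3
  e : (2 : ℝ) ^ ρ * (1 / (n : ℝ)) ^ (24 * p) + 8 * (1 / (n : ℝ)) ^ (32 * p)
      + 2 * (kap p n + 2) * (2 : ℝ) ^ ρ * t * (1 / (n : ℝ)) ^ (16 * p) ≤ (1 / (n : ℝ)) ^ (12 * p)

/-- tolerance of a small set in one round -/
def tau0 (p t n1 : ℕ) : ℝ :=
  5 * 10 ^ 7 * (p : ℝ) ^ 2 * Real.sqrt ((t : ℝ) * Real.log n1) * (Real.log n1) ^ 2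

/-- grid constant of the final stage -/
def agc (p t n1 : ℕ) : ℝ := 8 * Real.sqrt ((t : ℝ) * (16 * p * Real.log n1))

/-- tolerance of a set of size `s` in one round -/
def tau (p t n1 s : ℕ) : ℝ := if s < n1 ^ (16 * p) then tau0 p t n1 else 1 / (Real.log s) ^ 2

/-- numerical conditions of the final stage -/
structure FinOK (p t ρ n1 dd : ℕ) (γ : ℝ) : Prop where
  a : 2 * (1 / (n1 : ℝ) ^ (32 * p)) ^ 6 + 12 * t * Real.exp (-(64 * p * Real.log n1))
      ≤ (1 / (n1 : ℝ) ^ (16 * p)) ^ 2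
  b : 2 * (1 / (n1 : ℝ) ^ (32 * p)) ^ 6 + 12 * t * Real.exp (-(64 * p * Real.log n1)) ≤ γ / 4
  c : 1 ≤ agc p t n1
  d : 21600 * (1 / (n1 : ℝ)) ^ (12 * p) ≤ 9 / 200
  e : ∀ k : ℕ, 21600 * (((2 : ℝ) ^ ρ) ^ k * (1 / (nn n1 k : ℝ)) ^ 3)
      * (32 * p * Real.log (nn n1 k)) ^ 2 ≤ 1
  f : ∃ Nf : ℕ, 64 * (t : ℝ) ≤ 2 ^ Nf ∧
      1350 * Rf (64 * p * Real.log n1) t (agc p t n1) ((n1 : ℝ) ^ (16 * p)) Nf
        + 21600 * (1 / (n1 : ℝ)) ^ 3 ≤ tau0 p t n1
  g : ∀ n : ℕ, n1 ≤ n → 32 * t * n ^ 12 * dd ≤ n ^ (16 * p) ∧ 32 * t * n ^ 12 ≤ n ^ 16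
  h : 2 ≤ n1
  i : 2 ≤ tau0 p t n1

/-- pairwise intersections have at most `max dd (min |S i| |S j|)^(1-δ)` points -/
def Ovl {V J : Type} [DecidableEq V] (S : J → Finset V) (dd : ℕ) (δ : ℝ) : Prop :=
  ∀ i j, i ≠ j → (#(S i ∩ S j) : ℝ) ≤ max (dd : ℝ) (((min (#(S i)) (#(S j)) : ℕ) : ℝ) ^ (1 - δ))

end

end Pool.Agent.Helper50.BL
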