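import Pool.Agent.Helper50.BL.Stmts
import Pool.Agent.Helper50.BL.Base

/-! # One round -/

namespace Pool.Agent.Helper50.BL

open Finset
open scoped Classical

theorem layer_nn_ge {n1 : ℕ} (h : 2 ≤ n1) (k : ℕ) : n1 ≤ nn n1 k := by
  unfold nn
  calc n1 = n1 ^ 1 := (pow_one n1).symm
    _ ≤ n1 ^ 2 ^ k := Nat.pow_le_pow_right (by omega) (Nat.one_le_two_pow)

/-- the overlap condition in the form needed for the net -/
theorem layer_ovl {q s n t dd p : ℕ} {δ : ℝ} (hn : 1 ≤ n) (hδ : 0 < δ) (hδ1 : δ < 1)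
    (hδp : 1 ≤ δ * p) (hg1 : 32 * t * n ^ 12 * dd ≤ n ^ (16 * p)) (hg2 : 32 * t * n ^ 12 ≤ n ^ 16)
    (hs : n ^ (16 * p) ≤ s) (hq : (q : ℝ) ≤ max (dd : ℝ) ((s : ℝ) ^ (1 - δ))) :
    32 * t * n ^ 12 * q ≤ s := by
  rcases le_max_iff.1 hq with h | h
  · have h1 : q ≤ dd := by exact_mod_cast h
    exact le_trans (Nat.mul_le_mul_left _ h1) (le_trans hg1 hs)
  · have hn0 : (1 : ℝ) ≤ (n : ℝ) := by exact_mod_cast hn
    have hs1 : ((n : ℝ) ^ (16 * p)) ≤ (s : ℝ) := by exact_mod_cast hs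
    have hs0 : (0 : ℝ) < (s : ℝ) := lt_of_lt_of_le (by positivity) hs1
    have h2 : (n : ℝ) ^ 16 ≤ (s : ℝ) ^ δ := by
      have h3 : ((n : ℝ) ^ (16 * p)) ^ δ ≤ (s : ℝ) ^ δ :=
        Real.rpow_le_rpow (by positivity) hs1 hδ.le
      refine le_trans ?_ h3
      rw [← Real.rpow_natCast, ← Real.rpow_natCast, ← Real.rpow_mul (by positivity)]
      refine Real.rpow_le_rpow_of_exponent_le hn0 ?_
      push_cast
      nlinarith
    have h3 : ((32 * t * n ^ 12 : ℕ) : ℝ) ≤ (s : ℝ) ^ δ := by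
      refine le_trans ?_ h2
      exact_mod_cast hg2
    have h4 : ((32 * t * n ^ 12 * q : ℕ) : ℝ) ≤ (s : ℝ) := by
      calc ((32 * t * n ^ 12 * q : ℕ) : ℝ) = ((32 * t * n ^ 12 : ℕ) : ℝ) * (q : ℝ) := by
            push_cast; ring
        _ ≤ (s : ℝ) ^ δ * (s : ℝ) ^ (1 - δ) :=
            mul_le_mul h3 h (Nat.cast_nonneg _) (by positivity)
        _ = (s : ℝ) := by
            rw [← Real.rpow_add hs0]
            simp
    exact_mod_cast h4

/-- the dual inequality for the large sets -/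
theorem layer_big {p t ρ n1 dd s i : ℕ} {γ : ℝ} (hfo : FinOK p t ρ n1 dd γ) (hp : 1 ≤ p)
    (hi : 1 ≤ i) (hs1 : nn n1 (i - 1) ^ (16 * p) ≤ s) (hs2 : s < nn n1 i ^ (16 * p)) :
    21600 * bco ρ n1 i ≤ tau p t n1 s := by
  have hn1 : 2 ≤ n1 := hfo.h
  have hnn : n1 ≤ nn n1 (i - 1) := layer_nn_ge hn1 _
  have hs3 : n1 ^ (16 * p) ≤ s := le_trans (Nat.pow_le_pow_left hnn _) hs1
  have hs4 : 2 ≤ s := by
    refine le_trans ?_ hs3
    calc 2 = 2 ^ 1 := (pow_one 2).symm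
      _ ≤ 2 ^ (16 * p) := Nat.pow_le_pow_right (by norm_num) (by omega)
      _ ≤ n1 ^ (16 * p) := Nat.pow_le_pow_left hn1 _
  have hlog : 0 < Real.log (s : ℝ) := Real.log_pos (by exact_mod_cast (by omega : 1 < s))
  have e1 : nn n1 i = nn n1 (i - 1) ^ 2 := by
    unfold nn
    rw [← pow_mul]
    congr 1
    obtain ⟨k, rfl⟩ : ∃ k, i = k + 1 := ⟨i - 1, by omega⟩
    simp [pow_succ]
  have hlog2 : Real.log (s : ℝ) ≤ 32 * p * Real.log (nn n1 (i - 1)) := by
    have h1 : (s : ℝ) ≤ ((nn n1 (i - 1) : ℕ) : ℝ) ^ (32 * p) := by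
      have h2 : s ≤ nn n1 (i - 1) ^ (32 * p) := by
        refine le_trans hs2.le (le_of_eq ?_)
        rw [e1, ← pow_mul]
        congr 1
        ring
      exact_mod_cast h2
    have h3 := Real.log_le_log (by exact_mod_cast (by omega : 0 < s)) h1
    rw [Real.log_pow] at h3
    push_cast at h3
    exact h3
  have h4 := hfo.e (i - 1)
  have hb : bco ρ n1 i = ((2 : ℝ) ^ ρ) ^ (i - 1) * (1 / (nn n1 (i - 1) : ℝ)) ^ 3 := by
    unfold bco
    rw [if_neg (by omega)]
  rw [hb]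
  unfold tau
  rw [if_neg (by omega), le_div_iff₀ (by positivity)]
  refine le_trans ?_ h4
  refine mul_le_mul_of_nonneg_left ?_ (by positivity)
  exact pow_le_pow_left₀ hlog.le hlog2 2

theorem st_LAYER (hX : ST_XI) (hC : ST_CHN) (hD : ST_LPD) (hI : ST_IND) (hK : ST_CLS) :
    ST_LAYER := by
  intro V J _ _ _ _ S y p t ρ n1 dd Z0 δ γ η hp ht hρ hstep hfo hγ hγ1 hγη hη hδ hδ1 hδp hZ0 hy
    hdeg hov
  have hn1 : 2 ≤ n1 := hfo.h
  obtain ⟨lv, hlv1, hlv2⟩ := hK J (fun j => #(S j)) n1 p hfo.h hp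
  have hnge : ∀ k, n1 ≤ nn n1 k := layer_nn_ge hn1
  have hovl : ∀ i j, i ≠ j → 1 ≤ lv j →
      32 * t * nn n1 (lv j - 1) ^ 12 * #(S i ∩ S j) ≤ #(S j) := by
    intro i j hij hj
    have hg := hfo.g _ (hnge (lv j - 1))
    refine layer_ovl (dd := dd) (p := p) (δ := δ) (le_trans (by omega) (hnge (lv j - 1))) hδ hδ1
      hδp hg.1 hg.2 (hlv2 j hj) ?_
    refine le_trans (hov i j hij) (max_le_max le_rfl ?_)
    refine Real.rpow_le_rpow (Nat.cast_nonneg _) ?_ (by linarith)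
    exact_mod_cast min_le_right _ _
  obtain ⟨N, hKr, hAp⟩ := hI V J S p t ρ n1 lv hp ht hρ hn1 hstep hdeg hlv1 hlv2 hovl
  set Z : Finset J := univ.filter (fun j => lv j = 0) with hZ
  have hZc : univ \ Z = univ.filter (fun j => 1 ≤ lv j) := by
    ext j
    simp only [hZ, mem_sdiff, mem_univ, mem_filter, true_and]
    omega
  have hn1R : (2 : ℝ) ≤ (n1 : ℝ) := by exact_mod_cast hn1
  have hn10 : (0 : ℝ) < (n1 : ℝ) := by linarith
  have hlogn : 0 < Real.log (n1 : ℝ) := Real.log_pos (by linarith)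
  have htR : (1 : ℝ) ≤ (t : ℝ) := by exact_mod_cast ht
  have hpR : (1 : ℝ) ≤ (p : ℝ) := by exact_mod_cast hp
  set K : ℝ := (n1 : ℝ) ^ (16 * p) with hKdef
  have hK0 : 0 < K := by positivity
  have hK1 : 1 ≤ K := one_le_pow₀ (by linarith)
  have hZK : ∀ i ∈ Z, (#(S i) : ℝ) ≤ K := by
    intro i hi
    simp only [hZ, mem_filter, mem_univ, true_and] at hi
    have h1 := hlv1 i
    simp only [hi] at h1
    have h2 : nn n1 0 = n1 := by simp [nn]
    rw [h2] at h1
    rw [hKdef]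
    exact_mod_cast h1.le
  have hβK : (1 / K) ^ 2 * K ≤ 1 := by
    have : (1 / K) ^ 2 * K = 1 / K := by
      field_simp
    rw [this, div_le_one hK0]
    exact hK1
  have hκ0 : (0 : ℝ) ≤ 64 * p * Real.log n1 := by positivity
  have hγ4 : γ ≤ 1 := le_trans hγ1 (by norm_num)
  obtain ⟨ξ, hNB, hs1, hs2⟩ := hX V J N S Z t Z0 K (64 * p * Real.log n1) ((1 / K) ^ 2)
    ((1 / (n1 : ℝ) ^ (32 * p)) ^ 6) (agc p t n1) γ η y hy hdeg hZK (by positivity) hβK
    (by positivity) hκ0 hKr hfo.a hfo.b hγ hγ4 hγη hη hZ0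
  obtain ⟨Nf, hNf, hRf⟩ := hfo.f
  have hAg : K ^ 2 * Real.exp (-((agc p t n1) ^ 2 / (32 * t))) ≤ 1 := by
    have h1 : (agc p t n1) ^ 2 / (32 * t) = 32 * p * Real.log n1 := by
      unfold agc
      rw [mul_pow, Real.sq_sqrt (by positivity)]
      field_simp
      ring
    have h2 : Real.exp (-(32 * p * Real.log n1)) = (K ^ 2)⁻¹ := by
      rw [Real.exp_neg]
      congr 1
      rw [hKdef, ← pow_mul, mul_comm (32 * (p : ℝ)), Real.exp_mul, Real.exp_log hn10]
      rw [← Real.rpow_natCast]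
      congr 1
      push_cast
      ring
    rw [h1, h2, mul_inv_cancel₀ (by positivity)]
  rw [← hZc] at hAp
  have hch := hC V J N S Z _ t Nf K (64 * p * Real.log n1) (agc p t n1) γ y ξ hy ht hdeg hZK hK0
    hκ0 hfo.c hγ.le hγ1 hAg hNf hAp hNB
  have hta : ∀ j, 0 ≤ tau p t n1 (#(S j)) := by
    intro j
    unfold tau
    split_ifs
    · linarith [hfo.i]
    · positivity
  obtain ⟨y', hy1, hy2, hy3⟩ := hD V J S y ξ (fun j => tau p t n1 (#(S j))) hta (by
    intro lam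
    refine le_trans (hch lam) ?_
    have hl1 : 0 ≤ l1 (fld S lam univ) := Finset.sum_nonneg fun x _ => abs_nonneg _
    have hd := hfo.d
    have h1 : 21600 * ((1 / (n1 : ℝ)) ^ (12 * p) * l1 (fld S lam univ))
        ≤ 9 / 200 * l1 (fld S lam univ) := by
      have := mul_le_mul_of_nonneg_right hd hl1
      linarith
    have h2 : 21600 * ∑ j, bco ρ n1 (lv j) * |lam j|
        + 1350 * Rf (64 * p * Real.log n1) t (agc p t n1) K Nf * ∑ i ∈ Z, |lam i|
        ≤ ∑ j, tau p t n1 (#(S j)) * |lam j| := by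
      rw [hZ, Finset.sum_filter, Finset.mul_sum, Finset.mul_sum, ← Finset.sum_add_distrib]
      refine Finset.sum_le_sum fun j _ => ?_
      by_cases hj : lv j = 0
      · rw [if_pos hj]
        have e1 : bco ρ n1 (lv j) = (1 / (n1 : ℝ)) ^ 3 := by
          unfold bco
          rw [if_pos hj]
        have e2 : tau p t n1 (#(S j)) = tau0 p t n1 := by
          unfold tau
          have h3 := hlv1 j
          simp only [hj] at h3
          have h4 : nn n1 0 = n1 := by simp [nn]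
          rw [h4] at h3
          rw [if_pos h3]
        rw [e1, e2]
        have := mul_le_mul_of_nonneg_right hRf (abs_nonneg (lam j))
        nlinarith
      · rw [if_neg hj, mul_zero, add_zero]
        have h3 := layer_big (s := #(S j)) (i := lv j) hfo hp (by omega) (hlv2 j (by omega))
          (hlv1 j)
        have := mul_le_mul_of_nonneg_right h3 (abs_nonneg (lam j))
        linarith
    linarith)
  exact ⟨ξ, y', hy1, hy2, hy3, hs1, hs2⟩

end Pool.Agent.Helper50.BL
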