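import Pool.Agent.Helper50.BL.Stmts
import Pool.Agent.Helper50.BL.Base

/-! # Locality of the decoder -/

namespace Pool.Agent.Helper50.BL

open Finset
open scoped Classical

section

variable {V J ι : Type} [Fintype V] [DecidableEq V] [Fintype J] [DecidableEq J] {φ : ι → V → ℤ}
  {S : J → Finset V} {I B : Finset J}

omit [Fintype J] in
theorem loc_psup_sub (p : Pol ι J) : psup φ S I B p ⊆ reg φ S I B p := by
  intro x hx
  exact mem_biUnion.2 ⟨x, hx, mem_insert_self _ _⟩

omit [Fintype J] in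
theorem loc_nbr {p : Pol ι J} {x x' : V} {j : J} (hj : j ∈ B) (hx : x ∈ S j) (hx' : x' ∈ S j)
    (hp : x' ∈ psup φ S I B p) : x ∈ reg φ S I B p := by
  refine mem_biUnion.2 ⟨x', hp, mem_insert_of_mem (mem_biUnion.2 ⟨j, ?_, hx⟩)⟩
  exact mem_filter.2 ⟨hj, hx'⟩

omit [Fintype J] in
theorem loc_Phi {p : Pol ι J} {x : V} (h : pΦ φ x p ≠ 0) : x ∈ psup φ S I B p := by
  rcases p with a | p | p
  · simpa [psup, isupp, pΦ] using h
  · exact absurd rfl h
  · exact absurd rfl h

omit [Fintype J] in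
theorem loc_pr {p : Pol ι J} {i : J} (hi : i ∈ I) (h : pr i p ≠ 0) {x : V} (hx : x ∈ S i) :
    x ∈ psup φ S I B p := by
  rcases p with a | p | p
  · exact absurd rfl h
  · simp only [pr] at h
    by_cases h1 : p.1 = i
    · rw [if_pos h1] at h
      simp only [psup]
      rw [if_pos ⟨by rw [h1]; exact hi, h⟩, h1]
      exact hx
    · rw [if_neg h1] at h
      exact absurd rfl h
  · exact absurd rfl h

omit [Fintype J] in
theorem loc_pc {p : Pol ι J} {j : J} (hj : j ∈ B) (h : pc j p ≠ 0) {x : V} (hx : x ∈ S j) :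
    x ∈ psup φ S I B p := by
  rcases p with a | p | p
  · exact absurd rfl h
  · exact absurd rfl h
  · simp only [pc] at h
    by_cases h1 : p.1 = j
    · rw [if_pos h1] at h
      simp only [psup]
      rw [if_pos ⟨by rw [h1]; exact hj, h⟩, h1]
      exact hx
    · rw [if_neg h1] at h
      exact absurd rfl h

/-- data used by `out` at `x` -/
structure LocEq (S : J → Finset V) (I B : Finset J) (x : V) (Φ Φ' : V → ℤ) (r r' c c' : J → ℤ) :
    Prop where
  fa : Φ x = Φ' x
  fb : ∀ j ∈ B, x ∈ S j → ∀ x' ∈ S j, Φ x' = Φ' x'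
  fc : ∀ j ∈ B, x ∈ S j → ∀ i ∈ I, ∀ x' ∈ S j, x' ∈ S i → r i = r' i
  fd : ∀ j ∈ B, x ∈ S j → c j = c' j

omit [Fintype V] [Fintype J] in
theorem loc_out {T Lam : ℝ} {x : V} {Φ Φ' : V → ℤ} {r r' c c' : J → ℤ}
    (h : LocEq S I B x Φ Φ' r r' c c') : out S I B T Lam Φ r c x = out S I B T Lam Φ' r' c' x := by
  unfold out
  rw [h.fa]
  congr 2
  refine Finset.sum_congr rfl fun j hj => ?_
  obtain ⟨hjB, hxj⟩ := mem_filter.1 hj
  unfold dec
  rw [h.fd j hjB hxj]
  congr 3
  refine Finset.sum_congr rfl fun x' hx' => ?_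
  rw [h.fb j hjB hxj x' hx']
  congr 2
  refine Finset.sum_congr rfl fun i hi => ?_
  obtain ⟨hiI, hxi⟩ := mem_filter.1 hi
  rw [h.fc j hjB hxj i (mem_of_mem_erase hiI) x' hx' hxi]

omit [Fintype V] [Fintype J] in
theorem loc_out_zero {T Lam : ℝ} {x : V} :
    out S I B T Lam (fun _ => 0) (fun _ => 0) (fun _ => 0) x = 0 := by
  unfold out dec
  simp

omit [Fintype J] in
/-- if `x` is in no region then all the data used at `x` vanish -/
theorem loc_key {Q : Finset (Pol ι J)} {x : V} (hx : ∀ p ∈ Q, x ∉ reg φ S I B p) :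
    LocEq S I B x (fun x => ∑ p ∈ Q, pΦ φ x p) (fun _ => 0) (fun i => ∑ p ∈ Q, pr i p)
      (fun _ => 0) (fun j => ∑ p ∈ Q, pc j p) (fun _ => 0) where
  fa := by
    refine Finset.sum_eq_zero fun p hp => ?_
    by_contra h
    exact hx p hp (loc_psup_sub p (loc_Phi h))
  fb := by
    intro j hj hxj x' hx'
    refine Finset.sum_eq_zero fun p hp => ?_
    by_contra h
    exact hx p hp (loc_nbr hj hxj hx' (loc_Phi h))
  fc := by
    intro j hj hxj i hi x' hx' hxi
    refine Finset.sum_eq_zero fun p hp => ?_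
    by_contra h
    exact hx p hp (loc_nbr hj hxj hx' (loc_pr hi h hxi))
  fd := by
    intro j hj hxj
    refine Finset.sum_eq_zero fun p hp => ?_
    by_contra h
    exact hx p hp (loc_psup_sub p (loc_pc hj h hxj))

omit [Fintype J] in
theorem loc_zero {T Lam : ℝ} {Q : Finset (Pol ι J)} {x : V}
    (hx : ∀ p ∈ Q, x ∉ reg φ S I B p) : outQ φ S I B T Lam Q x = 0 := by
  unfold outQ
  rw [loc_out (loc_key hx), loc_out_zero]

omit [Fintype J] in
/-- in a decomposition, only the component whose regions contain `x` matters at `x` -/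
theorem loc_comp {T Lam : ℝ} {Q : Finset (Pol ι J)} {C : Finset (Finset (Pol ι J))}
    (h : IsComp (Rel φ S I B) Q C) {A : Finset (Pol ι J)} (hA : A ∈ C) {x : V}
    (hx : ∀ A' ∈ C, A' ≠ A → ∀ p ∈ A', x ∉ reg φ S I B p) :
    outQ φ S I B T Lam Q x = outQ φ S I B T Lam A x := by
  unfold outQ
  refine loc_out ⟨?_, ?_, ?_, ?_⟩
  · rw [h.sum, Finset.sum_eq_single_of_mem A hA]
    intro A' hA' hne
    exact (loc_key (hx A' hA' hne)).fa
  · intro j hj hxj x' hx'
    rw [h.sum, Finset.sum_eq_single_of_mem A hA]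
    intro A' hA' hne
    exact (loc_key (hx A' hA' hne)).fb j hj hxj x' hx'
  · intro j hj hxj i hi x' hx' hxi
    rw [h.sum, Finset.sum_eq_single_of_mem A hA]
    intro A' hA' hne
    exact (loc_key (hx A' hA' hne)).fc j hj hxj i hi x' hx' hxi
  · intro j hj hxj
    rw [h.sum, Finset.sum_eq_single_of_mem A hA]
    intro A' hA' hne
    exact (loc_key (hx A' hA' hne)).fd j hj hxj

omit [Fintype J] in
theorem loc_disj {Q : Finset (Pol ι J)} {C : Finset (Finset (Pol ι J))}
    (h : IsComp (Rel φ S I B) Q C) {A A' : Finset (Pol ι J)} (hA : A ∈ C) (hA' : A' ∈ C)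
    (hne : A ≠ A') {p q : Pol ι J} (hp : p ∈ A) (hq : q ∈ A') {x : V}
    (hx : x ∈ reg φ S I B p) : x ∉ reg φ S I B q := by
  intro hx'
  refine (h.2.2 A hA A' hA' hne p hp q hq).2 ?_
  unfold Rel
  rw [Finset.disjoint_left]
  push Not
  exact ⟨x, hx, hx'⟩

end

theorem st_LOC : ST_LOC := by
  intro V J ι _ _ _ _ φ S I B T Lam
  refine ⟨?_, ?_⟩
  · intro Q x hx
    by_contra hc
    push Not at hc
    exact hx (loc_zero hc)
  · intro Q C hC
    have key : ∀ A ∈ C, ∀ x, outQ φ S I B T Lam A x ≠ 0 → ∀ A' ∈ C, A' ≠ A →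
        ∀ p ∈ A', x ∉ reg φ S I B p := by
      intro A hA x hx A' hA' hne p hp
      have h1 : ∃ q ∈ A, x ∈ reg φ S I B q := by
        by_contra hc
        push Not at hc
        exact hx (loc_zero hc)
      obtain ⟨q, hq, hxq⟩ := h1
      exact loc_disj hC hA hA' (Ne.symm hne) hq hp hxq
    refine ⟨?_, ?_⟩
    · intro x
      by_cases hall : ∀ A ∈ C, ∀ p ∈ A, x ∉ reg φ S I B p
      · have h1 : ∀ p ∈ Q, x ∉ reg φ S I B p := by
          intro p hp
          obtain ⟨A, hA, hpA⟩ := (hC.2.1 p).1 hp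
          exact hall A hA p hpA
        rw [loc_zero h1]
        symm
        exact Finset.sum_eq_zero fun A hA => loc_zero (hall A hA)
      · push Not at hall
        obtain ⟨A, hA, p, hp, hxp⟩ := hall
        have h2 : ∀ A' ∈ C, A' ≠ A → ∀ q ∈ A', x ∉ reg φ S I B q := by
          intro A' hA' hne q hq
          exact loc_disj hC hA hA' (Ne.symm hne) hp hq hxp
        rw [loc_comp hC hA h2, Finset.sum_eq_single_of_mem A hA]
        intro A' hA' hne
        exact loc_zero (h2 A' hA' hne)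
    · intro A hA A' hA' hne x
      by_cases hx : outQ φ S I B T Lam A x = 0
      · exact Or.inl hx
      · exact Or.inr (loc_zero (key A hA x hx A' hA' (Ne.symm hne)))

end Pool.Agent.Helper50.BL
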