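import Pool.Agent.Helper50.BL.Stmts

/-! # Assembly -/

namespace Pool.Agent.Helper50.BL

open Finset
open scoped Classical

theorem main (hNF : ST_NUMF) (hNS : ST_NUMS) (hNP : ST_NUMP) (hL : ST_LAYER) (hI : ST_ITER)
    (hP : ST_POT) :
    ∀ δ : ℝ, 0 < δ → δ < 1 → ∃ C : ℝ, ∀ (t d : ℕ), 1 ≤ t → 1 ≤ d →
      ∀ (V J : Type) [Fintype V] [DecidableEq V] [Fintype J] [DecidableEq J] (S : J → Finset V),
        Deg S t → Ovl S d δ →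
        ∃ χ : V → ℤ, (∀ x, χ x = 1 ∨ χ x = -1) ∧ ∀ j, |((∑ x ∈ S j, χ x : ℤ) : ℝ)|
          ≤ C * Real.sqrt (t * Real.log (2 * t * d)) * Real.log (2 * t * d) ^ 3 := by
  intro δ hδ hδ1
  obtain ⟨γ, η, p, hγ, hγ1, hγη, hη, hη1, hηδ, hp, hδp, hN⟩ := hNF δ hδ hδ1
  obtain ⟨Ca, hCa⟩ := hNS p hp
  obtain ⟨Cb, hCb⟩ := hNP p γ hp hγ
  obtain ⟨C1, hC1⟩ := hN (max Ca Cb)
  refine ⟨C1, ?_⟩
  intro t d ht hd V J _ _ _ _ S hdeg hov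
  obtain ⟨dd, Z0, n1, ρ, hddd, hZdd, hZ2, hdd1, hρ1, hρ2, hn1, hn2, hZ0, hfin⟩ := hC1 t d ht hd
  have hstep : ∀ n : ℕ, n1 ≤ n → StepOK p t ρ n := by
    intro n hn
    refine hCa t ρ n ht hρ2 (le_trans ?_ (le_trans hn2 hn))
    exact Nat.pow_le_pow_left (Nat.mul_le_mul_right t (le_max_left Ca Cb)) 8
  have hfo : FinOK p t ρ n1 dd γ := by
    refine hCb t ρ dd n1 ht hdd1 hρ2 (le_trans ?_ hn1)
    exact Nat.pow_le_pow_left (Nat.mul_le_mul_right dd (Nat.mul_le_mul_right t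
      (le_max_right Ca Cb))) 8
  have hov' : Ovl S dd δ := by
    intro i j hij
    refine le_trans (hov i j hij) (max_le_max ?_ le_rfl)
    exact_mod_cast hddd
  obtain ⟨Psi, h1, h2, h3⟩ := hP p t n1 Z0 hp hfo.h hZ2 hfo.i
  obtain ⟨χ, hχ, hb⟩ := hI V J S t dd Z0 δ η (tau p t n1) Psi hδ hδ1 hη hη1 hηδ hZdd
    (by omega) (fun S' y hy hdS hoS => hL V J S' y p t ρ n1 dd Z0 δ γ η hp ht hρ1 hstep hfo hγ
      hγ1 hγη hη hδ hδ1 hδp hZ0 hy hdS hoS) h1 h2 hdeg hov'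
  exact ⟨χ, hχ, fun j => le_trans (hb j) (le_trans (h3 _) hfin)⟩

end Pool.Agent.Helper50.BL
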