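import Pool.Agent.Helper50.BL.Defs

/-!
# Statements of the modules (set systems with small pairwise intersections)
-/

namespace Pool.Agent.Helper50.BL

open Finset
open scoped Classical

noncomputable section

/-! ## probability -/

/-- Hoeffding -/
def ST_HOEF : Prop :=
  ∀ (V α : Type) [Fintype V] [DecidableEq V] [Fintype α] (mu : V → α → ℝ), IsW mu →
    ∀ (f : V → α → ℝ) (lo c : V → ℝ) (s2 u : ℝ),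
      (∀ v a, lo v ≤ f v a ∧ f v a ≤ lo v + c v) → (∀ v, ∑ a, mu v a * f v a = 0) →
      ∑ v, c v ^ 2 ≤ s2 → 0 < s2 → 0 ≤ u →
      Pr mu (fun w => u ≤ ∑ v, f v (w v)) ≤ Real.exp (-(2 * u ^ 2 / s2))

/-- the local lemma, any number of events -/
def ST_LLL : Prop :=
  ∀ (V α : Type) [Fintype V] [DecidableEq V] [Fintype α] (mu : V → α → ℝ), IsW mu →
    ∀ (I : Type) (X : I → Finset V) (Bad : I → (V → α) → Prop) (x : I → ℝ) (γ : ℝ),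
      (∀ i, Dep (X i) (Bad i)) → (∀ i, 0 ≤ x i) → (∀ i, x i ≤ 1 / 2) → 0 ≤ γ →
      (∀ i, Pr mu (Bad i) ≤ x i * Real.exp (-(γ * (#(X i) : ℝ)))) →
      (∀ v, ∀ F : Finset I, ∑ i ∈ F.filter (fun i => v ∈ X i), x i ≤ γ / 2) →
      ∃ w, ∀ i, ¬ Bad i w

/-! ## clusters -/

/-- components exist -/
def ST_COMP : Prop :=
  ∀ (α : Type) (R : α → α → Prop), (∀ a b, R a b → R b a) →
    ∀ Q : Finset α, ∃ C : Finset (Finset α), IsComp R Q C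

/-- Kotecky-Preiss bound for connected sets -/
def ST_KP : Prop :=
  ∀ (α : Type) (R : α → α → Prop), (∀ a b, R a b → R b a) →
    ∀ (w s : α → ℝ), (∀ a, 0 ≤ w a) → ∀ P : Finset α,
      (∀ p ∈ P, ∑ q ∈ P.filter (fun q => R p q), w q * Real.exp (s q) ≤ s p) →
      ∀ p ∈ P, ∑ Q ∈ P.powerset.filter (fun Q => p ∈ Q ∧ Conn R Q), ∏ q ∈ Q, w q
        ≤ w p * Real.exp (s p)

/-- Kraft inequality for clusters of polymers with supports `sup p` -/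
def ST_KPK : Prop :=
  ∀ (V α : Type) [Fintype V] [DecidableEq V] (sup : α → Finset V) (cost : α → ℝ)
    (nb : V → Finset V) (N β ζ : ℝ),
    (∀ x, x ∈ nb x) → (∀ x y, y ∈ nb x → x ∈ nb y) → (∀ x, (#(nb x) : ℝ) ≤ N) → 0 ≤ β → 0 ≤ ζ →
    (∀ (x : V) (F : Finset α),
      ∑ p ∈ F.filter (fun p => x ∈ sup p), Real.exp (-(cost p) + β * (#(sup p) : ℝ)) ≤ ζ) →
    N ^ 2 * ζ ≤ β →
    ∀ (x : V) (G : Finset (Finset α)),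
      ∑ Q ∈ G.filter (fun Q => Conn (fun p q => ¬ Disjoint ((sup p).biUnion nb)
          ((sup q).biUnion nb)) Q ∧ ∃ p ∈ Q, x ∈ (sup p).biUnion nb),
        Real.exp (-(∑ p ∈ Q, cost p)) ≤ N * ζ

/-- the labels at one point -/
def ST_ITS : Prop :=
  ∀ (V J : Type) [Fintype V] [DecidableEq V] [Fintype J] [DecidableEq J] (S : J → Finset V)
    (I : Finset J) (t : ℕ) (D κ β : ℝ), Deg S t → (∀ i ∈ I, (#(S i) : ℝ) ≤ D) → 0 ≤ β →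
    β * D ≤ 1 → ∀ (x : V) (F : Finset (J × ℤ)),
      ∑ p ∈ F.filter (fun p => x ∈ (if p.1 ∈ I ∧ p.2 ≠ 0 then S p.1 else ∅)),
        Real.exp (-(cst κ p.2) + β * (#(if p.1 ∈ I ∧ p.2 ≠ 0 then S p.1 else ∅) : ℝ))
        ≤ 6 * t * Real.exp (-κ)

/-! ## dyadic sums -/

def ST_D1 : Prop :=
  ∀ (a z : ℝ) (G : Finset ℤ), 0 < a → 0 ≤ z →
    ∑ l ∈ G, (2 : ℝ) ^ l * (if a * (2 : ℝ) ^ l ≤ z then Real.sqrt (z / (a * (2 : ℝ) ^ l)) else 0)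
      ≤ 4 * z / a

def ST_D2 : Prop :=
  ∀ (a z : ℝ) (G : Finset ℤ), 0 < a → 0 ≤ z →
    ∑ l ∈ G, (2 : ℝ) ^ l * (if a * (2 : ℝ) ^ l ≤ z then (1 : ℝ) else 0) ≤ 2 * z / a

def ST_D3 : Prop :=
  ∀ (a b z : ℝ) (N : ℕ) (G : Finset ℤ), 0 < b → b ≤ a → a ≤ 2 ^ N * b → 0 ≤ z →
    ∑ l ∈ G, (2 : ℝ) ^ l * (if b * (2 : ℝ) ^ l ≤ z ∧ z < a * (2 : ℝ) ^ l
      then z / (a * (2 : ℝ) ^ l) else 0) ≤ (N + 1) * z / a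

def ST_CNT : Prop :=
  ∀ (V : Type) [Fintype V] (f : V → ℝ) (G : Finset ℤ),
    ∑ l ∈ G, (2 : ℝ) ^ l * (#(univ.filter (fun x => (2 : ℝ) ^ l / 4 ≤ |f x|)) : ℝ) ≤ 8 * l1 f

/-- the sum of the item costs over the levels (class step) -/
def ST_E1S : Prop :=
  ∀ (κ t T Lam D z : ℝ) (Nn : ℕ) (G : Finset ℤ), 0 ≤ κ → 1 ≤ t → 0 < T → 1 ≤ Lam → 0 ≤ D →
    0 ≤ z → 64 * t * Lam ≤ 2 ^ Nn →
    ∑ l ∈ G, (2 : ℝ) ^ l * E1c κ t T Lam D ((2 : ℝ) ^ l) z ≤ Rc κ t T Lam D Nn * z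

/-- the sum of the correction costs over the levels (class step) -/
def ST_E2S : Prop :=
  ∀ (κ T z : ℝ) (G : Finset ℤ), 0 ≤ κ → 0 < T → 0 ≤ z →
    ∑ l ∈ G, (2 : ℝ) ^ l * E2c κ T ((2 : ℝ) ^ l) z ≤ 2 * (κ + 2) * T * z

/-- the sum of the label costs over the levels (final stage) -/
def ST_E1FS : Prop :=
  ∀ (κ t Ag K z : ℝ) (Nf : ℕ) (G : Finset ℤ), 0 ≤ κ → 1 ≤ t → 1 ≤ Ag → 0 < K → 0 ≤ z →
    64 * t ≤ 2 ^ Nf →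
    ∑ l ∈ G, (2 : ℝ) ^ l * E1f κ t Ag K ((2 : ℝ) ^ l) z ≤ Rf κ t Ag K Nf * z

/-! ## random rounding -/

/-- random rounding with tests -/
def ST_RND : Prop :=
  ∀ (J K : Type) [Fintype J] [DecidableEq J] [Fintype K] (I : Finset J) (lam : J → ℝ)
    (Q thr κ t v : ℝ) (c : K → J → ℝ) (sg pen : K → ℝ),
    0 < thr → thr ≤ Q → 0 ≤ κ → 0 ≤ t → 0 < v → (∀ k, 0 < sg k) → (∀ k i, 0 ≤ c k i) →
    (∀ k, ∑ i ∈ I, c k i ^ 2 ≤ sg k) → (∀ k, ∑ i ∈ I, c k i ≤ t) → (∀ k, 0 ≤ pen k) →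
    ∃ r : J → ℤ, (∀ i, i ∉ I → r i = 0) ∧ (∀ i ∈ I, |Q * (r i : ℝ) - lam i| ≤ Q) ∧
      ∑ i ∈ I, cst κ (r i)
        + ∑ k ∈ univ.filter (fun k => v + t * thr < |∑ i ∈ I, c k i * (Q * (r i : ℝ) - lam i)|),
            pen k
      ≤ ∑ i ∈ I, e1 κ Q thr |lam i|
        + ∑ k ∈ univ.filter (fun k => ∃ i ∈ I, c k i ≠ 0 ∧ thr ≤ |lam i|),
            pen k * (2 * Real.exp (-(2 * v ^ 2 / (Q ^ 2 * sg k))))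

/-- rounding and corrections in the class step -/
def ST_RC : Prop :=
  ∀ (V J : Type) [Fintype V] [DecidableEq V] [Fintype J] [DecidableEq J] (S : J → Finset V)
    (I B : Finset J) (lam : J → ℝ) (f : V → ℝ) (t : ℕ) (D T Lam κ h : ℝ),
    B ⊆ I → 1 ≤ t → Deg S t → (∀ i ∈ I, (#(S i) : ℝ) ≤ D) → (∀ j ∈ B, (S j).Nonempty) →
    1 ≤ Lam → 0 < T → 0 < h → 1 ≤ κ →
    (∀ j ∈ B, ∀ i ∈ I, i ≠ j → 32 * (t : ℝ) * Lam ^ 3 * (#(S i ∩ S j) : ℝ) ≤ (#(S j) : ℝ)) →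
    ∃ r c : J → ℤ, (∀ i, i ∉ I → r i = 0) ∧ (∀ j, j ∉ B → c j = 0) ∧
      (∀ j ∈ B, |(1 / (#(S j) : ℝ)) * ∑ x ∈ S j, (f x
          + ∑ i ∈ (I.erase j).filter (fun i => x ∈ S i), (8 * Lam * h / T * (r i : ℝ) - lam i))
          - 8 * h / T * (c j : ℝ)| ≤ 4 * h / T) ∧
      ∑ i ∈ I, cst κ (r i) + ∑ j ∈ B, cst κ (c j)
        ≤ ∑ i ∈ I, E1c κ t T Lam D h |lam i|
          + ∑ j ∈ B, E2c κ T h ((1 / (#(S j) : ℝ)) * ∑ x ∈ S j, |f x|)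

/-- rounding in the final stage -/
def ST_RNF : Prop :=
  ∀ (V J : Type) [Fintype V] [DecidableEq V] [Fintype J] [DecidableEq J] (S : J → Finset V)
    (Z : Finset J) (lam : J → ℝ) (t : ℕ) (K κ Ag h : ℝ),
    1 ≤ t → Deg S t → (∀ i ∈ Z, (#(S i) : ℝ) ≤ K) → 0 < K → 0 ≤ κ → 1 ≤ Ag → 0 < h →
    K ^ 2 * Real.exp (-(Ag ^ 2 / (32 * t))) ≤ 1 →
    ∃ r : J → ℤ, (∀ i, i ∉ Z → r i = 0) ∧
      ∑ i ∈ Z, cst κ (r i)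
        + (#(univ.filter (fun x => 9 * h / 64
            < |∑ i ∈ Z.filter (fun i => x ∈ S i), (h / Ag * (r i : ℝ) - lam i)|)) : ℝ)
        ≤ ∑ i ∈ Z, E1f κ t Ag K h |lam i|

/-! ## the class step -/

/-- the field of a set of polymers is the sum of the fields of its components -/
def ST_LOC : Prop :=
  ∀ (V J ι : Type) [Fintype V] [DecidableEq V] [Fintype J] [DecidableEq J] (φ : ι → V → ℤ)
    (S : J → Finset V) (I B : Finset J) (T Lam : ℝ),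
    (∀ (Q : Finset (Pol ι J)) (x : V), outQ φ S I B T Lam Q x ≠ 0 →
      ∃ p ∈ Q, x ∈ reg φ S I B p) ∧
    (∀ (Q : Finset (Pol ι J)) (C : Finset (Finset (Pol ι J))), IsComp (Rel φ S I B) Q C →
      (∀ x, outQ φ S I B T Lam Q x = ∑ A ∈ C, outQ φ S I B T Lam A x) ∧
      (∀ A ∈ C, ∀ A' ∈ C, A ≠ A' → ∀ x, outQ φ S I B T Lam A x = 0 ∨ outQ φ S I B T Lam A' x = 0))

/-- a set of polymers from its data -/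
def ST_QPC : Prop :=
  ∀ (V J : Type) [Fintype V] [DecidableEq V] [Fintype J] [DecidableEq J] (N : Net V) (κ : ℝ)
    (F : Finset N.ι) (r c : J → ℤ), ∃ Q : Finset (Pol N.ι J),
      (∀ x, ∑ p ∈ Q, pΦ N.φ x p = ∑ a ∈ F, N.φ a x) ∧ (∀ i, ∑ p ∈ Q, pr i p = r i) ∧
      (∀ j, ∑ p ∈ Q, pc j p = c j) ∧
      ∑ p ∈ Q, pcost N.H κ p = ∑ a ∈ F, N.H a + ∑ i, cst κ (r i) + ∑ j, cst κ (c j)

/-- Kraft inequality of the new net -/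
def ST_KST : Prop :=
  ∀ (V J : Type) [Fintype V] [DecidableEq V] [Fintype J] [DecidableEq J] (N : Net V)
    (S : J → Finset V) (I B : Finset J) (T Lam κ β βu ζu D : ℝ) (t : ℕ) (hκ : 0 ≤ κ) (hβ : 0 ≤ β),
    B ⊆ I → Deg S t → (∀ i ∈ I, (#(S i) : ℝ) ≤ D) → 0 ≤ D → 0 ≤ βu → βu * D ≤ 1 → 0 ≤ ζu →
    Kraft N βu ζu →
    (1 + t * D) ^ 2 * (ζu + 12 * t * Real.exp (-κ)) ≤ βu →
    Kraft (stepNet N S I B T Lam κ β hκ hβ) β ((1 + t * D) * (ζu + 12 * t * Real.exp (-κ)))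

/-- approximation property of the new net -/
def ST_AST : Prop :=
  ∀ (V J : Type) [Fintype V] [DecidableEq V] [Fintype J] [DecidableEq J] (N : Net V)
    (S : J → Finset V) (A B C : Finset J) (Bd : (J → ℝ) → ℝ) (t ρ Nn : ℕ)
    (D Lam κ β Mlow : ℝ) (hκ : 0 ≤ κ) (hβ : 0 ≤ β),
    Disjoint A B → Disjoint A C → Disjoint B C → 1 ≤ t → Deg S t →
    (∀ i ∈ B ∪ C, (#(S i) : ℝ) ≤ D) → 0 ≤ D → 0 < Mlow → (∀ j ∈ B, Mlow ≤ (#(S j) : ℝ)) →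
    1 ≤ Lam → 64 * (t : ℝ) ≤ 2 ^ ρ → 1 ≤ κ →
    (∀ j ∈ B, ∀ i ∈ B ∪ C, i ≠ j →
      32 * (t : ℝ) * Lam ^ 3 * (#(S i ∩ S j) : ℝ) ≤ (#(S j) : ℝ)) →
    64 * (t : ℝ) * Lam ≤ 2 ^ Nn → Approx N S A Bd →
    Approx (stepNet N S (B ∪ C) B ((2 : ℝ) ^ ρ) Lam κ β hκ hβ) S (A ∪ B)
      (fun lam => (2 : ℝ) ^ ρ * Bd lam
        + Rc κ t ((2 : ℝ) ^ ρ) Lam D Nn * ∑ i ∈ B ∪ C, |lam i|
        + 2 * (κ + 2) * (2 : ℝ) ^ ρ * t / Mlow * l1 (fld S lam (A ∪ B ∪ C))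
        + 8 * β * l1 (fld S lam (A ∪ B)))

/-- numerical conditions of the class step -/
def ST_NUMS : Prop :=
  ∀ p : ℕ, 1 ≤ p → ∃ C0 : ℕ, ∀ t ρ n : ℕ, 1 ≤ t → 2 ^ ρ ≤ 128 * t → (C0 * t) ^ 8 ≤ n →
    StepOK p t ρ n

/-- the net of all large sets -/
def ST_IND : Prop :=
  ∀ (V J : Type) [Fintype V] [DecidableEq V] [Fintype J] [DecidableEq J] (S : J → Finset V)
    (p t ρ n1 : ℕ) (lv : J → ℕ), 1 ≤ p → 1 ≤ t → 64 * t ≤ 2 ^ ρ → 2 ≤ n1 →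
    (∀ n : ℕ, n1 ≤ n → StepOK p t ρ n) → Deg S t →
    (∀ j, #(S j) < nn n1 (lv j) ^ (16 * p)) →
    (∀ j, 1 ≤ lv j → nn n1 (lv j - 1) ^ (16 * p) ≤ #(S j)) →
    (∀ i j, i ≠ j → 1 ≤ lv j → 32 * t * nn n1 (lv j - 1) ^ 12 * #(S i ∩ S j) ≤ #(S j)) →
    ∃ N : Net V, Kraft N ((1 / (n1 : ℝ) ^ (16 * p)) ^ 2) ((1 / (n1 : ℝ) ^ (32 * p)) ^ 6) ∧
      Approx N S (univ.filter (fun j => 1 ≤ lv j)) (fun lam =>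
        (1 / (n1 : ℝ)) ^ (12 * p) * l1 (fld S lam univ) + ∑ j, bco ρ n1 (lv j) * |lam j|)

/-! ## the final stage -/

/-- the drift function -/
def ST_GB : Prop :=
  (∀ (V : Type) (y : V → ℝ), (∀ x, |y x| ≤ 1 / 4) → IsW (mw y)) ∧
  (∀ (V : Type) (y : V → ℝ) (x : V) (w w' : ℤ), ∑ a, mw y x a * inc (y x) a w w' = 0) ∧
  (∀ (y : ℝ) (w w' : ℤ), |y| ≤ 1 / 4 → ∃ lo : ℝ, ∀ a : SignType,
    lo ≤ inc y a w w' ∧ inc y a w w' ≤ lo + 2 * |(w : ℝ) - 2 * (w' : ℝ)|) ∧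
  (∀ (y w w' : ℝ) (a : SignType), |y| ≤ 1 / 4 → |gg y a w - gg y a w'| ≤ 5 / 4 * |w - w'|) ∧
  (∀ (y w h : ℝ) (a : SignType), 0 ≤ h → gg y a (h * w) = h * gg y a w)

/-- probability of a bad event -/
def ST_EVT : Prop :=
  ∀ (V : Type) [Fintype V] [DecidableEq V] (y : V → ℝ) (γ H : ℝ) (w w' : V → ℤ),
    (∀ x, |y x| ≤ 1 / 4) → 0 ≤ γ → 0 ≤ H →
    Dep (Dst w w') (BadE y γ H w w') ∧
    Pr (mw y) (BadE y γ H w w') ≤ Real.exp (-(H + γ * (#(Dst w w') : ℝ)))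

/-- concentration of the number of staying points -/
def ST_SHR : Prop :=
  ∀ (V : Type) [Fintype V] [DecidableEq V] (y : V → ℝ) (η : ℝ) (X : Finset V),
    (∀ x, |y x| ≤ 1 / 4) → 0 < η →
    Dep X (fun ξ => η * (#X : ℝ) < |(#(stay ξ X) : ℝ) - (#X : ℝ) / 2|) ∧
    Pr (mw y) (fun ξ => η * (#X : ℝ) < |(#(stay ξ X) : ℝ) - (#X : ℝ) / 2|)
      ≤ 2 * Real.exp (-(2 * η ^ 2 * (#X : ℝ)))

/-- Kraft inequality of the final clusters -/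
def ST_FKR : Prop :=
  ∀ (V J : Type) [Fintype V] [DecidableEq V] [Fintype J] [DecidableEq J] (N : Net V)
    (S : J → Finset V) (Z : Finset J) (t : ℕ) (K κ β ζ : ℝ),
    Deg S t → (∀ i ∈ Z, (#(S i) : ℝ) ≤ K) → 0 ≤ β → β * K ≤ 1 → 0 ≤ ζ → 0 ≤ κ → Kraft N β ζ →
    2 * ζ + 12 * t * Real.exp (-κ) ≤ β →
    ∀ (x : V) (G : Finset (Finset (FPol N.ι J))),
      ∑ Q ∈ G.filter (fun Q => Conn (FRel N.φ S Z) Q ∧ ∃ p ∈ Q, x ∈ fsup N.φ S Z p),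
        Real.exp (-(∑ p ∈ Q, fcost N.H κ p)) ≤ 2 * ζ + 12 * t * Real.exp (-κ)

/-- locality of the final fields -/
def ST_FLOC : Prop :=
  ∀ (V J ι : Type) [Fintype V] [DecidableEq V] [Fintype J] [DecidableEq J] (φ : ι → V → ℤ)
    (S : J → Finset V) (Z : Finset J) (Ag : ℝ),
    (∀ (Q : Finset (FPol ι J)) (x : V), (fw1 φ S Z Ag Q x ≠ 0 ∨ fw2 φ S Z Ag Q x ≠ 0) →
      ∃ p ∈ Q, x ∈ fsup φ S Z p) ∧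
    (∀ (Q : Finset (FPol ι J)) (C : Finset (Finset (FPol ι J))), IsComp (FRel φ S Z) Q C →
      (∀ x, fw1 φ S Z Ag Q x = ∑ A ∈ C, fw1 φ S Z Ag A x) ∧
      (∀ x, fw2 φ S Z Ag Q x = ∑ A ∈ C, fw2 φ S Z Ag A x) ∧
      (∀ A ∈ C, ∀ A' ∈ C, A ≠ A' → ∀ x, (fw1 φ S Z Ag A x = 0 ∧ fw2 φ S Z Ag A x = 0) ∨
        (fw1 φ S Z Ag A' x = 0 ∧ fw2 φ S Z Ag A' x = 0)))

/-- a set of polymers of the final stage from its data -/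
def ST_QFC : Prop :=
  ∀ (V J : Type) [Fintype V] [DecidableEq V] [Fintype J] [DecidableEq J] (N : Net V) (κ : ℝ)
    (F F' : Finset N.ι) (r r' : J → ℤ), ∃ Q : Finset (FPol N.ι J),
      (∀ x, ∑ p ∈ Q, fΦ1 N.φ x p = ∑ a ∈ F, N.φ a x) ∧
      (∀ x, ∑ p ∈ Q, fΦ2 N.φ x p = ∑ a ∈ F', N.φ a x) ∧
      (∀ i, ∑ p ∈ Q, fr1 i p = r i) ∧ (∀ i, ∑ p ∈ Q, fr2 i p = r' i) ∧
      ∑ p ∈ Q, fcost N.H κ p
        = ∑ a ∈ F, N.H a + ∑ a ∈ F', N.H a + ∑ i, cst κ (r i) + ∑ i, cst κ (r' i)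

/-- a good rounding exists -/
def ST_XI : Prop :=
  ∀ (V J : Type) [Fintype V] [DecidableEq V] [Fintype J] [DecidableEq J] (N : Net V)
    (S : J → Finset V) (Z : Finset J) (t Z0 : ℕ) (K κ β ζ Ag γ η : ℝ) (y : V → ℝ),
    (∀ x, |y x| ≤ 1 / 4) → Deg S t → (∀ i ∈ Z, (#(S i) : ℝ) ≤ K) → 0 ≤ β → β * K ≤ 1 → 0 ≤ ζ →
    0 ≤ κ → Kraft N β ζ → 2 * ζ + 12 * t * Real.exp (-κ) ≤ β →
    2 * ζ + 12 * t * Real.exp (-κ) ≤ γ / 4 → 0 < γ → γ ≤ 1 → γ ≤ η ^ 2 → 0 < η →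
    2 * ((t : ℝ) + (t : ℝ) ^ 2) * Real.exp (-(η ^ 2 * Z0)) ≤ γ / 4 →
    ∃ ξ : V → SignType, NoBad N S Z Ag κ γ y ξ ∧
      (∀ j, Z0 ≤ #(S j) → |(#(stay ξ (S j)) : ℝ) - (#(S j) : ℝ) / 2| ≤ η * (#(S j) : ℝ)) ∧
      (∀ i j, i ≠ j → Z0 ≤ #(S i ∩ S j) →
        |(#(stay ξ (S i ∩ S j)) : ℝ) - (#(S i ∩ S j) : ℝ) / 2| ≤ η * (#(S i ∩ S j) : ℝ))

/-- no bad event: the increments are small -/
def ST_LEV : Prop :=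
  ∀ (V J : Type) [Fintype V] [DecidableEq V] [Fintype J] [DecidableEq J] (N : Net V)
    (S : J → Finset V) (Z : Finset J) (Ag κ γ : ℝ) (y : V → ℝ) (ξ : V → SignType),
    0 ≤ κ → 0 ≤ γ → γ ≤ 1 / 10 ^ 6 → NoBad N S Z Ag κ γ y ξ → ∀ Q : Finset (FPol N.ι J),
      ∑ x ∈ Dst (fw1 N.φ S Z Ag Q) (fw2 N.φ S Z Ag Q),
          inc (y x) (ξ x) (fw1 N.φ S Z Ag Q x) (fw2 N.φ S Z Ag Q x)
        ≤ (#(Dst (fw1 N.φ S Z Ag Q) (fw2 N.φ S Z Ag Q)) : ℝ) / 100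
          + 900 * ∑ p ∈ Q, fcost N.H κ p

/-- comparison of two consecutive levels -/
def ST_LV1 : Prop :=
  ∀ (V : Type) [Fintype V] [DecidableEq V] (y : V → ℝ) (ξ : V → SignType) (w : V → ℝ) (h : ℝ)
    (u u' : V → ℤ) (b b' : Finset V), (∀ x, |y x| ≤ 1 / 4) → 0 < h →
    (∀ x, x ∉ b → |h * (u x : ℝ) - w x| ≤ 3 / 4 * h ∧ (|w x| < h / 4 → u x = 0)) →
    (∀ x, x ∉ b' → |2 * h * (u' x : ℝ) - w x| ≤ 3 / 4 * (2 * h) ∧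
      (|w x| < 2 * h / 4 → u' x = 0)) →
    Gs y ξ (fun x => if x ∈ b then h * (round (w x / h) : ℝ) else h * (u x : ℝ))
      - Gs y ξ (fun x => if x ∈ b' then 2 * h * (round (w x / (2 * h)) : ℝ)
          else 2 * h * (u' x : ℝ))
      ≤ -(l1 (fun x => if x ∈ b then h * (round (w x / h) : ℝ) else h * (u x : ℝ))
          - l1 (fun x => if x ∈ b' then 2 * h * (round (w x / (2 * h)) : ℝ)
            else 2 * h * (u' x : ℝ))) / 8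
        + h * ∑ x ∈ Dst u u', inc (y x) (ξ x) (u x) (u' x)
        + 8 * h * ((#b : ℝ) + (#b' : ℝ)) ∧
    (#(Dst u u') : ℝ) ≤ (#(univ.filter (fun x => h / 4 ≤ |w x|)) : ℝ) + (#b : ℝ) + (#b' : ℝ)

/-- one level: fine data with its cost -/
def ST_ONE : Prop :=
  ∀ (V J : Type) [Fintype V] [DecidableEq V] [Fintype J] [DecidableEq J] (N : Net V)
    (S : J → Finset V) (Z : Finset J) (t : ℕ) (K κ Ag h : ℝ) (lam : J → ℝ) (F : Finset N.ι),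
    1 ≤ t → Deg S t → (∀ i ∈ Z, (#(S i) : ℝ) ≤ K) → 0 < K → 0 ≤ κ → 1 ≤ Ag → 0 < h →
    K ^ 2 * Real.exp (-(Ag ^ 2 / (32 * t))) ≤ 1 →
    (∀ x, |h / 16 * ((∑ a ∈ F, N.φ a x : ℤ) : ℝ) - fld S lam (univ \ Z) x| ≤ h / 16) →
    ∃ (r : J → ℤ) (b : Finset V), (∀ i, i ∉ Z → r i = 0) ∧
      ∑ i, cst κ (r i) + (#b : ℝ) ≤ ∑ i ∈ Z, E1f κ t Ag K h |lam i| ∧
      (∀ x, x ∉ b →
        |h * (finw S Z Ag (fun x => ∑ a ∈ F, N.φ a x) r x : ℝ) - fld S lam univ x| ≤ 3 / 4 * h ∧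
        (|fld S lam univ x| < h / 4 → finw S Z Ag (fun x => ∑ a ∈ F, N.φ a x) r x = 0))

/-- the chain: all dual inequalities at once -/
def ST_CHN : Prop :=
  ∀ (V J : Type) [Fintype V] [DecidableEq V] [Fintype J] [DecidableEq J] (N : Net V)
    (S : J → Finset V) (Z : Finset J) (Bd : (J → ℝ) → ℝ) (t Nf : ℕ) (K κ Ag γ : ℝ) (y : V → ℝ)
    (ξ : V → SignType), (∀ x, |y x| ≤ 1 / 4) → 1 ≤ t → Deg S t →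
    (∀ i ∈ Z, (#(S i) : ℝ) ≤ K) → 0 < K → 0 ≤ κ → 1 ≤ Ag → 0 ≤ γ → γ ≤ 1 / 10 ^ 6 →
    K ^ 2 * Real.exp (-(Ag ^ 2 / (32 * t))) ≤ 1 → 64 * (t : ℝ) ≤ 2 ^ Nf →
    Approx N S (univ \ Z) Bd → NoBad N S Z Ag κ γ y ξ →
    ∀ lam : J → ℝ, Gs y ξ (fld S lam univ)
      ≤ -(9 / 200) * l1 (fld S lam univ) + 21600 * Bd lam
        + 1350 * Rf κ t Ag K Nf * ∑ i ∈ Z, |lam i|

/-- LP duality -/
def ST_LPD : Prop :=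
  ∀ (V J : Type) [Fintype V] [DecidableEq V] [Fintype J] [DecidableEq J] (S : J → Finset V)
    (y : V → ℝ) (ξ : V → SignType) (τ : J → ℝ), (∀ j, 0 ≤ τ j) →
    (∀ lam : J → ℝ, Gs y ξ (fld S lam univ) ≤ ∑ j, τ j * |lam j|) →
    ∃ y' : V → ℝ, (∀ x, |y' x| ≤ 1 / 4) ∧ (∀ x, ξ x ≠ 0 → y' x = 0) ∧
      ∀ j, |∑ x ∈ S j, ((ξ x : ℝ) + y' x - y x)| ≤ τ j

/-! ## rounds -/

/-- classes exist -/
def ST_CLS : Prop :=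
  ∀ (J : Type) (s : J → ℕ) (n1 p : ℕ), 2 ≤ n1 → 1 ≤ p → ∃ lv : J → ℕ,
    (∀ j, s j < nn n1 (lv j) ^ (16 * p)) ∧ (∀ j, 1 ≤ lv j → nn n1 (lv j - 1) ^ (16 * p) ≤ s j)

/-- numerical conditions of the final stage -/
def ST_NUMP : Prop :=
  ∀ (p : ℕ) (γ : ℝ), 1 ≤ p → 0 < γ → ∃ C0 : ℕ, ∀ t ρ dd n1 : ℕ, 1 ≤ t → 1 ≤ dd →
    2 ^ ρ ≤ 128 * t → (C0 * t * dd) ^ 8 ≤ n1 → FinOK p t ρ n1 dd γ

/-- the conclusion of one round -/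
def Round {V J : Type} [Fintype V] [DecidableEq V] [Fintype J] (S : J → Finset V)
    (y : V → ℝ) (η : ℝ) (Z0 : ℕ) (ta : ℕ → ℝ) : Prop :=
  ∃ (ξ : V → SignType) (y' : V → ℝ), (∀ x, |y' x| ≤ 1 / 4) ∧ (∀ x, ξ x ≠ 0 → y' x = 0) ∧
    (∀ j, |∑ x ∈ S j, ((ξ x : ℝ) + y' x - y x)| ≤ ta (#(S j))) ∧
    (∀ j, Z0 ≤ #(S j) → |(#(stay ξ (S j)) : ℝ) - (#(S j) : ℝ) / 2| ≤ η * (#(S j) : ℝ)) ∧
    (∀ i j, i ≠ j → Z0 ≤ #(S i ∩ S j) →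
      |(#(stay ξ (S i ∩ S j)) : ℝ) - (#(S i ∩ S j) : ℝ) / 2| ≤ η * (#(S i ∩ S j) : ℝ))

/-- one round -/
def ST_LAYER : Prop :=
  ∀ (V J : Type) [Fintype V] [DecidableEq V] [Fintype J] [DecidableEq J] (S : J → Finset V)
    (y : V → ℝ) (p t ρ n1 dd Z0 : ℕ) (δ γ η : ℝ), 1 ≤ p → 1 ≤ t → 64 * t ≤ 2 ^ ρ →
    (∀ n : ℕ, n1 ≤ n → StepOK p t ρ n) → FinOK p t ρ n1 dd γ →
    0 < γ → γ ≤ 1 / 10 ^ 6 → γ ≤ η ^ 2 → 0 < η → 0 < δ → δ < 1 → 1 ≤ δ * p →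
    2 * ((t : ℝ) + (t : ℝ) ^ 2) * Real.exp (-(η ^ 2 * Z0)) ≤ γ / 4 →
    (∀ x, |y x| ≤ 1 / 4) → Deg S t → Ovl S dd δ →
    Round S y η Z0 (tau p t n1)

/-- the overlap condition is kept -/
def ST_INV : Prop :=
  ∀ (V J : Type) [Fintype V] [DecidableEq V] [Fintype J] [DecidableEq J] (S : J → Finset V)
    (ξ : V → SignType) (dd Z0 : ℕ) (δ η : ℝ), 0 < δ → δ < 1 → 0 < η → η ≤ 1 / 4 →
    1 / 2 + η ≤ (1 / 2 - η) ^ (1 - δ) → Z0 ≤ dd → Ovl S dd δ →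
    (∀ j, Z0 ≤ #(S j) → |(#(stay ξ (S j)) : ℝ) - (#(S j) : ℝ) / 2| ≤ η * (#(S j) : ℝ)) →
    (∀ i j, i ≠ j → Z0 ≤ #(S i ∩ S j) →
      |(#(stay ξ (S i ∩ S j)) : ℝ) - (#(S i ∩ S j) : ℝ) / 2| ≤ η * (#(S i ∩ S j) : ℝ)) →
    Ovl (fun j => stay ξ (S j)) dd δ

/-- iteration of the rounds -/
def ST_ITER : Prop :=
  ∀ (V J : Type) [Fintype V] [DecidableEq V] [Fintype J] [DecidableEq J] (S : J → Finset V)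
    (t dd Z0 : ℕ) (δ η : ℝ) (ta Psi : ℕ → ℝ), 0 < δ → δ < 1 → 0 < η → η ≤ 1 / 4 →
    1 / 2 + η ≤ (1 / 2 - η) ^ (1 - δ) → Z0 ≤ dd → 1 ≤ Z0 →
    (∀ (S' : J → Finset V) (y : V → ℝ), (∀ x, |y x| ≤ 1 / 4) → Deg S' t → Ovl S' dd δ →
      Round S' y η Z0 ta) →
    (∀ s : ℕ, s < Z0 → 5 / 4 * (s : ℝ) ≤ Psi s) →
    (∀ s s' : ℕ, Z0 ≤ s → (s' : ℝ) ≤ 3 / 4 * (s : ℝ) → ta s + Psi s' ≤ Psi s) →
    Deg S t → Ovl S dd δ →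
    ∃ χ : V → ℤ, (∀ x, χ x = 1 ∨ χ x = -1) ∧ ∀ j, |((∑ x ∈ S j, χ x : ℤ) : ℝ)| ≤ Psi (#(S j))

/-- the potential -/
def ST_POT : Prop :=
  ∀ (p t n1 Z0 : ℕ), 1 ≤ p → 2 ≤ n1 → 2 ≤ Z0 → 2 ≤ tau0 p t n1 → ∃ Psi : ℕ → ℝ,
    (∀ s : ℕ, s < Z0 → 5 / 4 * (s : ℝ) ≤ Psi s) ∧
    (∀ s s' : ℕ, Z0 ≤ s → (s' : ℝ) ≤ 3 / 4 * (s : ℝ) → tau p t n1 s + Psi s' ≤ Psi s) ∧
    (∀ s, Psi s ≤ 2 * Z0 + 64 * p * tau0 p t n1 * Real.log n1 + 32)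

/-- the choice of the parameters -/
def ST_NUMF : Prop :=
  ∀ δ : ℝ, 0 < δ → δ < 1 → ∃ (γ η : ℝ) (p : ℕ), 0 < γ ∧ γ ≤ 1 / 10 ^ 6 ∧ γ ≤ η ^ 2 ∧
    0 < η ∧ η ≤ 1 / 4 ∧ 1 / 2 + η ≤ (1 / 2 - η) ^ (1 - δ) ∧ 1 ≤ p ∧ 1 ≤ δ * p ∧
    ∀ C0 : ℕ, ∃ C1 : ℝ, ∀ t d : ℕ, 1 ≤ t → 1 ≤ d → ∃ dd Z0 n1 ρ : ℕ, d ≤ dd ∧ Z0 ≤ dd ∧ 2 ≤ Z0 ∧
      1 ≤ dd ∧ 64 * t ≤ 2 ^ ρ ∧ 2 ^ ρ ≤ 128 * t ∧ (C0 * t * dd) ^ 8 ≤ n1 ∧ (C0 * t) ^ 8 ≤ n1 ∧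
      2 * ((t : ℝ) + (t : ℝ) ^ 2) * Real.exp (-(η ^ 2 * Z0)) ≤ γ / 4 ∧
      2 * Z0 + 64 * p * tau0 p t n1 * Real.log n1 + 32
        ≤ C1 * Real.sqrt (t * Real.log (2 * t * d)) * Real.log (2 * t * d) ^ 3

end

end Pool.Agent.Helper50.BL
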